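import Pool.Agent.helper52.T1.SpecS

/-!
# Row t1:BCN (few bad digits)
-/

set_option autoImplicit false

open scoped MatrixGroups ContDiff Topology UpperHalfPlane ComplexConjugate
open UpperHalfPlane MeasureTheory Filter Set

namespace Pool.Agent.T1

open Pool.Agent.RS Pool.Agent.MS Pool.Agent.HV
open Pool.Agent.EN (XG MG mkX mkM fl pr)

noncomputable section

/-- a maximal separated subset -/
theorem BCN_sep (X : Finset ℝ) (δ : ℝ) (hδ : 0 < δ) :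
    ∃ S ⊆ X, (∀ x ∈ S, ∀ y ∈ S, x ≠ y → δ ≤ |x - y|) ∧ ∀ x ∈ X, ∃ s ∈ S, |x - s| < δ := by
  classical
  induction X using Finset.induction_on with
  | empty => exact ⟨∅, by simp, by simp, by simp⟩
  | insert a X ha ih =>
    obtain ⟨S, hS, h1, h2⟩ := ih
    by_cases h : ∃ s ∈ S, |a - s| < δ
    · refine ⟨S, hS.trans (Finset.subset_insert a X), h1, ?_⟩
      intro x hx
      rcases Finset.mem_insert.1 hx with rfl | hx
      · exact h
      · exact h2 x hx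
    · push Not at h
      refine ⟨insert a S, Finset.insert_subset_insert a hS, ?_, ?_⟩
      · intro x hx y hy hxy
        rcases Finset.mem_insert.1 hx with hx' | hx'
        · rcases Finset.mem_insert.1 hy with hy' | hy'
          · exact absurd (hx'.trans hy'.symm) hxy
          · rw [hx']; exact h y hy'
        · rcases Finset.mem_insert.1 hy with hy' | hy'
          · rw [hy', abs_sub_comm]; exact h x hx'
          · exact h1 x hx' y hy' hxy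
      · intro x hx
        rcases Finset.mem_insert.1 hx with rfl | hx
        · exact ⟨x, Finset.mem_insert_self x S, by simpa using hδ⟩
        · obtain ⟨s, hs, hs2⟩ := h2 x hx
          exact ⟨s, Finset.mem_insert_of_mem hs, hs2⟩

/-- covering an interval of length `1/(2T)` by intervals of radius `1/N` -/
theorem BCN_cov (N : ℝ) (T s ξ : ℝ) (hN : 0 < N) (hT : 0 < T) (h : |4 * ξ - s| < 1 / T) :
    ∃ m < ⌊N / (4 * T)⌋₊ + 1, |ξ - (s / 4 - 1 / (4 * T) + (2 * (m : ℝ) + 1) / N)| ≤ 1 / N := by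
  obtain ⟨h1, h2⟩ := abs_lt.1 h
  set y : ℝ := ξ - (s / 4 - 1 / (4 * T)) with hy
  have e0 : 1 / (4 * T) = (1 / T) / 4 := by field_simp
  have hy0 : 0 < y := by rw [hy, e0]; linarith
  have hy1 : y < 1 / T / 2 := by rw [hy, e0]; linarith
  refine ⟨⌊y * N / 2⌋₊, ?_, ?_⟩
  · apply Nat.lt_succ_of_le
    apply Nat.floor_le_floor
    have h3 : y * N / 2 ≤ (1 / T / 2) * N / 2 := by
      have := mul_le_mul_of_nonneg_right hy1.le hN.le
      linarith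
    refine h3.trans (le_of_eq ?_)
    field_simp
    norm_num
  · set m : ℕ := ⌊y * N / 2⌋₊ with hm
    have h3 : (m : ℝ) ≤ y * N / 2 := Nat.floor_le (by positivity)
    have h4 : y * N / 2 < m + 1 := Nat.lt_floor_add_one _
    have e1 : ξ - (s / 4 - 1 / (4 * T) + (2 * (m : ℝ) + 1) / N) = (y * N - (2 * m + 1)) / N := by
      rw [hy]; field_simp; ring
    rw [e1, abs_div, abs_of_pos hN, div_le_div_iff_of_pos_right hN, abs_le]
    constructor <;> linarith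

/-- dyadic scales -/
theorem BCN_dy (a t : ℝ) (ha : 0 < a) (ht : a ≤ t) : ∃ i : ℕ, 2 ^ i * a ≤ t ∧ t ≤ 2 * (2 ^ i * a) := by
  have h1 : 1 ≤ t / a := by rw [le_div_iff₀ ha]; linarith
  obtain ⟨i, hi1, hi2⟩ := exists_nat_pow_near h1 (by norm_num : (1 : ℝ) < 2)
  refine ⟨i, ?_, ?_⟩
  · rwa [le_div_iff₀ ha] at hi1
  · rw [div_lt_iff₀ ha, pow_succ] at hi2
    linarith

theorem BCN_XX (w τ x : ℝ) (hw : |w| ≤ 1 / 1000) (hτ : |τ| ≤ 1 / 1000) (hx : |x| ≤ 1 / 1000) : |4 * XX w τ x| ≤ 1 / 20 := by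
  obtain ⟨t1, t2⟩ := abs_le.1 hτ
  have e1 : Real.exp (τ / 2) ≤ 2 := by
    have h1 : Real.exp (τ / 2) ≤ Real.exp (1 / 2000) := Real.exp_le_exp.2 (by linarith)
    have h2 := Real.exp_bound_div_one_sub_of_interval (x := 1 / 2000) (by norm_num) (by norm_num)
    refine h1.trans (h2.trans ?_)
    norm_num
  have e2 : 9 / 10 ≤ Real.exp (-(τ / 2)) := by
    have h1 := Real.add_one_le_exp (-(τ / 2))
    linarith
  have e3 : |w * x * Real.exp (τ / 2)| ≤ 1 / 1000 * (1 / 1000) * 2 := by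
    rw [abs_mul, abs_mul, abs_of_pos (Real.exp_pos _)]
    exact mul_le_mul (mul_le_mul hw hx (abs_nonneg _) (by norm_num)) e1 (Real.exp_pos _).le (by norm_num)
  obtain ⟨w1, w2⟩ := abs_le.1 e3
  have hd : 1 / 2 ≤ dX w τ x := by
    unfold dX
    linarith
  have hd0 : 0 < dX w τ x := by linarith
  have e4 : |x * Real.exp (τ / 2)| ≤ 1 / 1000 * 2 := by
    rw [abs_mul, abs_of_pos (Real.exp_pos _)]
    exact mul_le_mul hx e1 (Real.exp_pos _).le (by norm_num)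
  have e5 : |XX w τ x| ≤ 1 / 80 := by
    unfold XX
    rw [abs_div, abs_of_pos hd0, div_le_iff₀ hd0]
    linarith
  rw [abs_mul, abs_of_pos (by norm_num : (0 : ℝ) < 4)]
  linarith

/-- one scale and one box -/
theorem BCN_one (C1 C2 : ℝ) (hC1 : 1 ≤ C1) (hC2 : 1 ≤ C2)
    (hB : ∀ (N : ℕ) (U : Finset ℤ) (T G : ℝ) (S : Finset ℝ), 1 ≤ N → 1 ≤ T → T ≤ 4 * N → 0 < G → (∀ k ∈ U, |(k : ℝ)| ≤ 2 * N) → (∀ x ∈ S, |x| ≤ 1 / 20) → (∀ x ∈ S, ∀ x' ∈ S, x ≠ x' → 1 / T ≤ |x - x'|) →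
      (∀ x ∈ S, ∃ t : ℝ, T ≤ |t| ∧ |t| ≤ 2 * T ∧ G ≤ ‖EU N U t x‖) → (S.card : ℝ) ≤ C1 * (U.card : ℝ) ^ 2 * N ^ 3 * T ^ (1 / 2 : ℝ) * Real.log (2 + N) / G ^ 5)
    (N : ℕ) (U : Finset ℤ) (Um T G : ℝ) (P : ℕ → ℝ → Prop) (B : Finset ℕ)
    (hR : ∀ (X0 : ℝ) (Q : Finset ℕ), (∀ c ∈ Q, ∃ ξ, P c ξ ∧ |ξ - X0| ≤ 1 / (N : ℝ)) → (Q.card : ℝ) ≤ C2) (hP : ∀ c ξ, P c ξ → |4 * ξ| ≤ 1 / 20)
    (hN : 1 ≤ N) (hT : 1 ≤ T) (hT2 : T ≤ 4 * N) (hG : 0 < G) (hU : (U.card : ℝ) ≤ Um) (hU2 : ∀ k ∈ U, |(k : ℝ)| ≤ 2 * N)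
    (hb : ∀ c ∈ B, ∃ ξ, P c ξ ∧ ∃ t : ℝ, T ≤ |t| ∧ |t| ≤ 2 * T ∧ G ≤ ‖EU N U t (4 * ξ)‖) :
    (B.card : ℝ) ≤ 9 * C1 * C2 * Um ^ 2 * (N : ℝ) ^ 4 * T ^ (-(1 / 2) : ℝ) * Real.log (2 + N) / G ^ 5 := by
  classical
  have hN0 : (0 : ℝ) < N := by exact_mod_cast hN
  have hT0 : 0 < T := by linarith
  choose! f hf using hb
  obtain ⟨S, hS, h1, h2⟩ := BCN_sep (B.image fun c => 4 * f c) (1 / T) (by positivity)
  have hS1 : (S.card : ℝ) ≤ C1 * (U.card : ℝ) ^ 2 * N ^ 3 * T ^ (1 / 2 : ℝ) * Real.log (2 + N) / G ^ 5 := by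
    refine hB N U T G S hN hT hT2 hG hU2 ?_ h1 ?_
    · intro x hx
      obtain ⟨c, hc, rfl⟩ := Finset.mem_image.1 (hS hx)
      exact hP c (f c) (hf c hc).1
    · intro x hx
      obtain ⟨c, hc, rfl⟩ := Finset.mem_image.1 (hS hx)
      exact (hf c hc).2
  set M : ℕ := ⌊(N : ℝ) / (4 * T)⌋₊ + 1 with hM
  set Q : ℝ → ℕ → Finset ℕ := fun s m => B.filter fun c => |f c - (s / 4 - 1 / (4 * T) + (2 * (m : ℝ) + 1) / N)| ≤ 1 / N with hQ
  have hsub : B ⊆ S.biUnion fun s => (Finset.range M).biUnion fun m => Q s m := by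
    intro c hc
    obtain ⟨s, hs, hs2⟩ := h2 (4 * f c) (Finset.mem_image_of_mem _ hc)
    obtain ⟨m, hm, hm2⟩ := BCN_cov N T s (f c) hN0 hT0 hs2
    exact Finset.mem_biUnion.2 ⟨s, hs, Finset.mem_biUnion.2 ⟨m, Finset.mem_range.2 hm, Finset.mem_filter.2 ⟨hc, hm2⟩⟩⟩
  have hQc : ∀ s m, ((Q s m).card : ℝ) ≤ C2 := by
    intro s m
    refine hR (s / 4 - 1 / (4 * T) + (2 * (m : ℝ) + 1) / N) (Q s m) ?_
    intro c hc
    obtain ⟨hcB, hc2⟩ := Finset.mem_filter.1 hc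
    exact ⟨f c, (hf c hcB).1, hc2⟩
  have hcard : (B.card : ℝ) ≤ S.card * (M * C2) := by
    have c1 : B.card ≤ ∑ s ∈ S, ∑ m ∈ Finset.range M, (Q s m).card :=
      (Finset.card_le_card hsub).trans (Finset.card_biUnion_le.trans (Finset.sum_le_sum fun s _ => Finset.card_biUnion_le))
    have c2 : (B.card : ℝ) ≤ ∑ s ∈ S, ∑ m ∈ Finset.range M, ((Q s m).card : ℝ) := by exact_mod_cast c1
    refine c2.trans ?_
    calc ∑ s ∈ S, ∑ m ∈ Finset.range M, ((Q s m).card : ℝ) ≤ ∑ _s ∈ S, ∑ _m ∈ Finset.range M, C2 :=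
          Finset.sum_le_sum fun s _ => Finset.sum_le_sum fun m _ => hQc s m
      _ = S.card * (M * C2) := by simp
  have hMle : (M : ℝ) ≤ 9 * N / T := by
    have m1 : (M : ℝ) ≤ N / (4 * T) + 1 := by
      rw [hM]; push_cast
      have := Nat.floor_le (by positivity : (0 : ℝ) ≤ (N : ℝ) / (4 * T))
      linarith
    have m2 : (1 : ℝ) ≤ 4 * N / T := by rw [le_div_iff₀ hT0]; linarith
    have m3 : (N : ℝ) / (4 * T) = N / T / 4 := by field_simp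
    have m4 : 9 * (N : ℝ) / T = 9 * (N / T) := by ring
    have m5 : 4 * (N : ℝ) / T = 4 * (N / T) := by ring
    have m6 : 0 < (N : ℝ) / T := by positivity
    rw [m4]
    rw [m3] at m1
    rw [m5] at m2
    linarith
  have hlog : 0 ≤ Real.log (2 + (N : ℝ)) := Real.log_nonneg (by linarith)
  have hTh : T ^ (1 / 2 : ℝ) / T = T ^ (-(1 / 2) : ℝ) := by
    have h0 : T ^ (1 / 2 : ℝ) / T ^ (1 : ℝ) = T ^ (1 / 2 - 1 : ℝ) := (Real.rpow_sub hT0 _ _).symm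
    rw [Real.rpow_one] at h0
    rw [h0]
    norm_num
  have hUm : (U.card : ℝ) ^ 2 ≤ Um ^ 2 := pow_le_pow_left₀ (Nat.cast_nonneg _) hU 2
  have hTp : 0 ≤ T ^ (1 / 2 : ℝ) := Real.rpow_nonneg hT0.le _
  calc (B.card : ℝ) ≤ S.card * (M * C2) := hcard
    _ ≤ (C1 * Um ^ 2 * N ^ 3 * T ^ (1 / 2 : ℝ) * Real.log (2 + N) / G ^ 5) * (9 * N / T * C2) := by
        apply mul_le_mul _ (mul_le_mul_of_nonneg_right hMle (by linarith)) (by positivity) (by positivity)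
        refine hS1.trans ?_
        apply div_le_div_of_nonneg_right _ (by positivity)
        apply mul_le_mul_of_nonneg_right _ hlog
        apply mul_le_mul_of_nonneg_right _ hTp
        apply mul_le_mul_of_nonneg_right _ (by positivity)
        exact mul_le_mul_of_nonneg_left hUm (by linarith)
    _ = 9 * C1 * C2 * Um ^ 2 * (N : ℝ) ^ 4 * (T ^ (1 / 2 : ℝ) / T) * Real.log (2 + N) / G ^ 5 := by ring
    _ = _ := by rw [hTh]

theorem BCN_proof (hBDX : BDX_stmt) (hRET : RET_stmt) : BCN_stmt := by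
  classical
  intro Γ hΓ
  obtain ⟨C1, hC1, hB⟩ := hBDX
  obtain ⟨C2, hC2, hR⟩ := hRET Γ hΓ
  refine ⟨90 * (C1 * C2), by nlinarith, ?_⟩
  intro Z U N0 k h Um H G B hN0 hH hHN hG hUm hZ hb
  set N : ℕ := N0 ^ k with hN
  have hNc : ((N : ℕ) : ℝ) = (N0 : ℝ) ^ k := by rw [hN]; push_cast; rfl
  rw [← hNc] at hHN ⊢
  have hN2 : (2 : ℝ) ≤ N := hH.trans hHN
  have hN1 : 1 ≤ N := by
    have : (1 : ℝ) ≤ N := by linarith
    exact_mod_cast this
  have hN0' : (0 : ℝ) < N := by linarith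
  set Rep : SL(2, ℝ) → ℕ → ℝ → Prop := fun z c ξ => c < N0 ^ k ∧ ∃ (γ : Γ) (w τ x : ℝ), |w| ≤ 1 / 1000 ∧ |τ| ≤ 1 / 1000 ∧ |x| ≤ 1 / 1000 ∧
    (γ : SL(2, ℝ)) * (h * lM (4 * ((c : ℝ) / N0 ^ k)) * aM (k * Real.log N0)) = z * lM w * aM τ * nM x ∧ ξ = XX w τ x with hRep
  set T : ℕ → ℝ := fun i => 2 ^ i * (H / 2) with hT
  set Bz : SL(2, ℝ) → ℕ → Finset ℕ := fun z i => B.filter fun c => ∃ ξ, Rep z c ξ ∧ ∃ t : ℝ, T i ≤ |t| ∧ |t| ≤ 2 * T i ∧ |t| ≤ 4 * N ∧ G ≤ ‖EU N (U z) t (4 * ξ)‖ with hBz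
  set I : ℕ := ⌊Real.logb 2 (4 * N)⌋₊ + 1 with hI
  have hlog2 : 0 < Real.log 2 := Real.log_pos (by norm_num)
  have hsub : B ⊆ Z.biUnion fun z => (Finset.range I).biUnion fun i => Bz z i := by
    intro c hc
    obtain ⟨hcN, z, hz, γ, w, τ, x, hw, hτ, hx, heq, t, ht1, ht2, ht3⟩ := hb c hc
    rw [← hNc] at ht2
    obtain ⟨i, hi1, hi2⟩ := BCN_dy (H / 2) |t| (by linarith) ht1
    refine Finset.mem_biUnion.2 ⟨z, hz, Finset.mem_biUnion.2 ⟨i, Finset.mem_range.2 ?_, Finset.mem_filter.2 ⟨hc, XX w τ x, ⟨hcN, γ, w, τ, x, hw, hτ, hx, heq, rfl⟩, t, hi1, hi2, ht2, ht3⟩⟩⟩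
    apply Nat.lt_succ_of_le
    apply Nat.le_floor
    rw [Real.le_logb_iff_rpow_le (by norm_num) (by positivity), Real.rpow_natCast]
    have h2i : (2 : ℝ) ^ i ≤ 2 ^ i * (H / 2) := le_mul_of_one_le_right (by positivity) (by linarith)
    linarith
  have hlogN : 0 < Real.log (2 + (N : ℝ)) := Real.log_pos (by linarith)
  have hIle : (I : ℝ) ≤ 5 * Real.log (2 + (N : ℝ)) := by
    have i1 : (I : ℝ) ≤ Real.logb 2 (4 * N) + 1 := by
      rw [hI]; push_cast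
      have := Nat.floor_le (Real.logb_nonneg (by norm_num : (1 : ℝ) < 2) (by linarith : (1 : ℝ) ≤ 4 * N))
      linarith
    have i2 : Real.logb 2 (4 * N) = 2 + Real.log N / Real.log 2 := by
      rw [Real.logb, Real.log_mul (by norm_num) hN0'.ne', show (4 : ℝ) = 2 ^ 2 by norm_num, Real.log_pow]
      field_simp
      push_cast
      ring
    have hl2 : (0.693 : ℝ) < Real.log 2 := by
      have := Real.log_two_gt_d9
      linarith
    have i3 : Real.log N ≤ Real.log (2 + (N : ℝ)) := Real.log_le_log hN0' (by linarith)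
    have i4 : 2 * Real.log 2 ≤ Real.log (2 + (N : ℝ)) := by
      have : Real.log (2 ^ 2) ≤ Real.log (2 + (N : ℝ)) := Real.log_le_log (by norm_num) (by linarith)
      rw [Real.log_pow] at this
      exact_mod_cast this
    have i5 : Real.log N / Real.log 2 ≤ 1.5 * Real.log (2 + (N : ℝ)) := by
      rw [div_le_iff₀ hlog2]
      have h0 : Real.log (2 + (N : ℝ)) ≤ 1.5 * Real.log (2 + (N : ℝ)) * Real.log 2 := by
        have h1 : (1 : ℝ) ≤ 1.5 * Real.log 2 := by linarith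
        calc Real.log (2 + (N : ℝ)) = Real.log (2 + (N : ℝ)) * 1 := (mul_one _).symm
          _ ≤ Real.log (2 + (N : ℝ)) * (1.5 * Real.log 2) := mul_le_mul_of_nonneg_left h1 hlogN.le
          _ = _ := by ring
      linarith
    rw [i2] at i1
    linarith
  have hHalf : ∀ i, (T i) ^ (-(1 / 2) : ℝ) ≤ 2 * H ^ (-(1 / 2) : ℝ) := by
    intro i
    have hHp : 0 < H / 2 := by linarith
    have t1 : H / 2 ≤ T i := by
      have : (1 : ℝ) ≤ 2 ^ i := one_le_pow₀ (by norm_num)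
      exact le_mul_of_one_le_left hHp.le this
    have t2 : (T i) ^ (-(1 / 2) : ℝ) ≤ (H / 2) ^ (-(1 / 2) : ℝ) := Real.rpow_le_rpow_of_nonpos hHp t1 (by norm_num)
    have t3 : (H / 2) ^ (-(1 / 2) : ℝ) = H ^ (-(1 / 2) : ℝ) * 2 ^ (1 / 2 : ℝ) := by
      rw [Real.div_rpow (by linarith) (by norm_num), Real.rpow_neg (by norm_num : (0 : ℝ) ≤ 2), div_inv_eq_mul]
    have t4 : (2 : ℝ) ^ (1 / 2 : ℝ) ≤ 2 := by
      calc (2 : ℝ) ^ (1 / 2 : ℝ) ≤ 2 ^ (1 : ℝ) := Real.rpow_le_rpow_of_exponent_le (by norm_num) (by norm_num)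
        _ = 2 := Real.rpow_one 2
    have t5 : 0 ≤ H ^ (-(1 / 2) : ℝ) := Real.rpow_nonneg (by linarith) _
    rw [t3] at t2
    nlinarith
  set K : ℝ := 18 * C1 * C2 * Um ^ 2 * (N : ℝ) ^ 4 * H ^ (-(1 / 2) : ℝ) * Real.log (2 + N) / G ^ 5 with hK
  have hHp : 0 ≤ H ^ (-(1 / 2) : ℝ) := Real.rpow_nonneg (by linarith) _
  have hK0 : 0 ≤ K := by positivity
  have hBc : ∀ z ∈ Z, ∀ i, ((Bz z i).card : ℝ) ≤ K := by
    intro z hz i
    rcases Finset.eq_empty_or_nonempty (Bz z i) with he | ⟨c0, hc0⟩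
    · rw [he]; simpa using hK0
    · obtain ⟨-, -, -, t0, ht0, -, ht0', -⟩ := Finset.mem_filter.1 hc0
      have hTle : T i ≤ 4 * N := ht0.trans ht0'
      have hT1 : 1 ≤ T i := by
        have h1 : (1 : ℝ) ≤ 2 ^ i := one_le_pow₀ (by norm_num)
        have h2 : (1 : ℝ) ≤ H / 2 := by linarith
        calc (1 : ℝ) = 1 * 1 := (mul_one 1).symm
          _ ≤ 2 ^ i * (H / 2) := mul_le_mul h1 h2 (by norm_num) (by positivity)
      have hone := BCN_one C1 C2 hC1 hC2 hB N (U z) Um (T i) G (Rep z) (Bz z i) ?_ ?_ hN1 hT1 hTle hG (hZ z hz).1 ?_ ?_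
      · refine hone.trans ?_
        have h3 := hHalf i
        have h4 : 9 * C1 * C2 * Um ^ 2 * (N : ℝ) ^ 4 * T i ^ (-(1 / 2) : ℝ) * Real.log (2 + N) / G ^ 5 ≤
            9 * C1 * C2 * Um ^ 2 * (N : ℝ) ^ 4 * (2 * H ^ (-(1 / 2) : ℝ)) * Real.log (2 + N) / G ^ 5 := by
          apply div_le_div_of_nonneg_right _ (by positivity)
          apply mul_le_mul_of_nonneg_right _ hlogN.le
          exact mul_le_mul_of_nonneg_left h3 (by positivity)
        refine h4.trans (le_of_eq ?_)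
        rw [hK]; ring
      · intro X0 Q hQ
        refine hR N0 k h z X0 Q hN0 ?_
        intro c hc
        obtain ⟨ξ, ⟨hcN, γ, w, τ, x, hw, hτ, hx, heq, hξ⟩, hξ2⟩ := hQ c hc
        refine ⟨hcN, γ, w, τ, x, hw, hτ, hx, heq, ?_⟩
        rw [← hξ, ← hNc]; exact hξ2
      · rintro c ξ ⟨-, γ, w, τ, x, hw, hτ, hx, -, rfl⟩
        exact BCN_XX w τ x hw hτ hx
      · intro κ hκ
        rw [hNc]; exact (hZ z hz).2 κ hκ
      · intro c hc
        obtain ⟨-, ξ, hξ, t, h1, h2, -, h4⟩ := Finset.mem_filter.1 hc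
        exact ⟨ξ, hξ, t, h1, h2, h4⟩
  have hcard : (B.card : ℝ) ≤ Z.card * (I * K) := by
    have c1 : B.card ≤ ∑ z ∈ Z, ∑ i ∈ Finset.range I, (Bz z i).card :=
      (Finset.card_le_card hsub).trans (Finset.card_biUnion_le.trans (Finset.sum_le_sum fun s _ => Finset.card_biUnion_le))
    have c2 : (B.card : ℝ) ≤ ∑ z ∈ Z, ∑ i ∈ Finset.range I, ((Bz z i).card : ℝ) := by exact_mod_cast c1
    refine c2.trans ?_
    calc ∑ z ∈ Z, ∑ i ∈ Finset.range I, ((Bz z i).card : ℝ) ≤ ∑ _z ∈ Z, ∑ _i ∈ Finset.range I, K :=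
          Finset.sum_le_sum fun z hz => Finset.sum_le_sum fun i _ => hBc z hz i
      _ = Z.card * (I * K) := by simp
  calc (B.card : ℝ) ≤ Z.card * (I * K) := hcard
    _ ≤ Z.card * (5 * Real.log (2 + (N : ℝ)) * K) :=
        mul_le_mul_of_nonneg_left (mul_le_mul_of_nonneg_right hIle hK0) (Nat.cast_nonneg _)
    _ = _ := by rw [hK]; ring

end

end Pool.Agent.T1
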